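import Pool.Agent.H5.DZ.TwoLines
import Pool.Agent.H5.DZ.Data10

set_option autoImplicit false

/-!
# The minimum distances of the binary cyclic codes from Ding–Zhou sequences

Assertion (b) of the problem is false: for `m = 10` the minimum distance of `C_{D,0}` is at least
`36` for `h = 1` (the problem asks for `34`) and at least `34` for `h = 2` (the problem asks for
`32`).

Proof.  Let `c` be a word of `C_{D,0}`, and let `p j` be the value of its polynomial at `α ^ j`.
If `p (a k + b i) = 0` for `k < i` and `p (a k + b k) ≠ 0` for `k, i ≤ r`, then the matrix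
`p (a k + b i)` is regular and of rank at most the weight of `c`, so the weight is at least `r`.
The zeros `j ∈ D_0` are known; as the lower bound of the problem comes from an arithmetic
progression of zeros, words of smaller weight have some known nonzero values as well. For `h = 2`
there is a triangular matrix with `33` rows; for `h = 1` there are eight of them, with `35` rows,
one for each leaf of a decision tree which branches at the vanishing of some other values `p j`.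
The certificates are checked by the kernel (`Pool.Agent.H5.DZ`).
-/

namespace Pool.Agent.Results.MP_5d9799_lc.DistancesExceed

open Finset Polynomial Pool.Agent.H5.DZ

/-- The 2-cyclotomic coset `C_i` of `i` modulo `2 ^ m - 1`. -/
def coset (m i : ℕ) : Finset ℕ := (range m).image fun j => i * 2 ^ j % (2 ^ m - 1)

/-- The set `Γ` of the coset leaders. -/
def leaders (m : ℕ) : Finset ℕ := (range (2 ^ m - 1)).filter fun i => ∀ j ∈ coset m i, i ≤ j

/-- `ρ_i`, the number of even elements of `C_i`. -/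
def rho (m i : ℕ) : ℕ := ((coset m i).filter fun j => j % 2 = 0).card

/-- `v_i ∈ {0, 1}`, congruent to `m ρ_i / l_i` modulo `2`, where `l_i = |C_i|` (a divisor of
`m`). -/
def v (m i : ℕ) : ℕ := m * rho m i / (coset m i).card % 2

/-- The set `Γ_1` of the odd numbers `a` with `1 ≤ a ≤ 2 ^ h - 1`. -/
def Gamma1 (h : ℕ) : Set ℕ := {a | Odd a ∧ 1 ≤ a ∧ a ≤ 2 ^ h - 1}

/-- `ε_a`: it is `1` for `a = 2 ^ h - 1` and the least integer `≥ log₂ ((2 ^ h - 1) / a)`
otherwise. -/
noncomputable def eps (h a : ℕ) : ℕ :=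
  if a = 2 ^ h - 1 then 1 else ⌈Real.logb 2 (((2 : ℝ) ^ h - 1) / a)⌉₊

open Classical in
/-- `u_j ∈ {0, 1}`, `j ∈ Γ`. -/
noncomputable def u (m h j : ℕ) : ℕ :=
  if j = 1 then (v m 1 + h + 1) % 2
  else if j ∈ Gamma1 h then (eps h j % 2 + v m j) % 2 else v m j

/-- `D_i`, the union of the cosets `C_j`, `j ∈ Γ`, with `u_j = i`. -/
noncomputable def D (m h i : ℕ) : Finset ℕ :=
  ((leaders m).filter fun j => u m h j = i).biUnion (coset m)

variable {K : Type} [Field K] [Algebra (ZMod 2) K]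

/-- The code `C_{D,0}`: length `2 ^ m - 1`, generator polynomial `∏ (x - α ^ j)`, `j ∈ D_0`. -/
def code0 (m h : ℕ) (α : K) : Set (Fin (2 ^ m - 1) → ZMod 2) :=
  cyclicCode (2 ^ m - 1) (∏ j ∈ D m h 0, (X - C (α ^ j)))

/-- The code `C_{D,1}`: length `2 ^ m - 1`, generator polynomial `(x - 1) ∏ (x - α ^ j)`,
`j ∈ D_1`. -/
def code1 (m h : ℕ) (α : K) : Set (Fin (2 ^ m - 1) → ZMod 2) :=
  cyclicCode (2 ^ m - 1) ((X - 1) * ∏ j ∈ D m h 1, (X - C (α ^ j)))

/-- Assertion (a) of the problem. -/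
def PartA : Prop := ∀ (l e m h : ℕ) (K : Type) [Field K] [Algebra (ZMod 2) K] (α : K),
  2 ≤ l → 3 ≤ e → Odd e → m = 2 ^ l * e → 0 < h → h ≤ (m - 4) / 2 → Nat.card K = 2 ^ m →
  IsPrimitiveRoot α (2 ^ m - 1) →
  minDist (code1 m h α) = if Even h then 2 ^ (m / 2) + 4 else 2 ^ (m / 2) + 2

/-- Assertion (b) of the problem. -/
def PartB : Prop := ∀ (e m : ℕ) (K : Type) [Field K] [Algebra (ZMod 2) K] (α : K),
  3 ≤ e → Odd e → m = 2 * e → Nat.card K = 2 ^ m → IsPrimitiveRoot α (2 ^ m - 1) →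
  minDist (code0 m 1 α) = 2 ^ (m / 2) + 2 ∧ minDist (code0 m 2 α) = 2 ^ (m / 2)

/-! ### Proofs -/

/-- `u` for `h = 1, 2`. -/
def u' (m h j : ℕ) : ℕ :=
  if j = 1 then (v m 1 + h + 1) % 2 else if j = 2 ^ h - 1 then (1 + v m j) % 2 else v m j

theorem u_eq (m h j : ℕ) (hh : h = 1 ∨ h = 2) : u m h j = u' m h j := by
  unfold u u' Gamma1 eps
  by_cases h1 : j = 1
  · simp [h1]
  · rw [if_neg h1, if_neg h1]
    by_cases h2 : j = 2 ^ h - 1
    · have : j ∈ {a | Odd a ∧ 1 ≤ a ∧ a ≤ 2 ^ h - 1} := by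
        rcases hh with rfl | rfl
        · norm_num at h2
          exact absurd h2 h1
        · norm_num at h2
          subst h2
          refine ⟨by decide, by norm_num, by norm_num⟩
      rw [if_pos this, if_pos h2, if_pos h2]
    · have : j ∉ {a | Odd a ∧ 1 ≤ a ∧ a ≤ 2 ^ h - 1} := by
        rintro ⟨ho, hl, hu⟩
        rcases hh with rfl | rfl
        · norm_num at hu
          omega
        · norm_num at hu h2
          rcases ho with ⟨k, hk⟩
          omega
      rw [if_neg this, if_neg h2]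

theorem self_mem_coset {m j : ℕ} (hm : m ≠ 0) (hj : j ∈ leaders m) : j ∈ coset m j := by
  have h1 : j < 2 ^ m - 1 := by
    have := (mem_filter.1 hj).1
    exact mem_range.1 this
  exact mem_image.2 ⟨0, mem_range.2 (Nat.pos_of_ne_zero hm), by
    rw [pow_zero, mul_one, Nat.mod_eq_of_lt h1]⟩

theorem mem_D_iff {m h i j : ℕ} : j ∈ D m h i ↔ ∃ r ∈ leaders m, u m h r = i ∧ j ∈ coset m r := by
  unfold D
  rw [mem_biUnion]
  constructor
  · rintro ⟨r, hr, hj⟩
    exact ⟨r, (mem_filter.1 hr).1, (mem_filter.1 hr).2, hj⟩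
  · rintro ⟨r, hr, hu, hj⟩
    exact ⟨r, mem_filter.2 ⟨hr, hu⟩, hj⟩

theorem lt_of_mem_D (m h i : ℕ) (hm : 2 ≤ m) : ∀ j ∈ D m h i, j < 2 ^ m - 1 := by
  intro j hj
  obtain ⟨r, _, _, hj⟩ := mem_D_iff.1 hj
  obtain ⟨k, _, rfl⟩ := mem_image.1 hj
  apply Nat.mod_lt
  have : 2 ^ 2 ≤ 2 ^ m := Nat.pow_le_pow_right (by norm_num) hm
  omega

/-- A set of zeros of the words of `C_{D,0}`. -/
theorem ps_zero_of_code0 {m h : ℕ} (hm : m ≠ 0) {α : K} {c : Fin (2 ^ m - 1) → ZMod 2}
    (hc : c ∈ code0 m h α) {r : ℕ} (hr : r ∈ leaders m) (hu : u m h r = 0) : ps α c r = 0 := by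
  refine ps_eq_zero_of_dvd hc ?_
  rw [eval_prod]
  refine Finset.prod_eq_zero (mem_D_iff.2 ⟨r, hr, hu, self_mem_coset hm hr⟩) ?_
  simp

/-- The values of a word on `D_i` vanish if they vanish at the coset leaders. -/
theorem ps_zero_D {m h i : ℕ} {α : K} (hα : IsPrimitiveRoot α (2 ^ m - 1))
    (c : Fin (2 ^ m - 1) → ZMod 2)
    (hc : ∀ r ∈ leaders m, u m h r = i → ps α c r = 0) : ∀ j ∈ D m h i, ps α c j = 0 := by
  intro j hj
  obtain ⟨r, hr, hu, hj⟩ := mem_D_iff.1 hj
  obtain ⟨k, _, rfl⟩ := mem_image.1 hj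
  rw [ps_mod hα.pow_eq_one, ps_double_pow, hc r hr hu, zero_pow (by positivity)]

theorem R10_1_spec : ∀ r ∈ R10_1, r ∈ leaders 10 ∧ u' 10 1 r = 0 := by decide +kernel

theorem R10_2_spec : ∀ r ∈ R10_2, r ∈ leaders 10 ∧ u' 10 2 r = 0 := by decide +kernel

theorem line10 : ∀ q ∈ range 33, ∀ h ∈ [1, 2], u' 10 h (31 * q) = 0 → q = 0 := by
  decide +kernel

theorem zero_mem_D10 : 0 ∈ leaders 10 ∧ ∀ h ∈ [1, 2], u' 10 h 0 = 0 := by decide +kernel

theorem bounds10 (h : ℕ) (hh : h = 1 ∨ h = 2) (R : List ℕ)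
    (hR : ∀ r ∈ R, r ∈ leaders 10 ∧ u' 10 h r = 0) (w : ℕ) (t : Tree) (hw : Even w)
    (hch : check 1023 10 w t (mask 1023 10 R) 0 = true)
    (α : K) (hα : IsPrimitiveRoot α (2 ^ 10 - 1)) :
    w + 2 ≤ minDist (code0 10 h α) ∧ minDist (code0 10 h α) ≤ 62 := by
  have hmem : h ∈ [1, 2] := by
    rcases hh with rfl | rfl <;> simp
  have hn : (2 ^ 10 - 1 : ℕ) = 31 * 33 := by norm_num
  have h210 : 2 ≤ 10 := by norm_num
  have hlt := lt_of_mem_D 10 h 0 h210
  refine minDist_bounds (twoLines (2 ^ 10 - 1) 33) ?_ ?_ ?_ ?_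
  · refine mem_code_of_zeros hα (D 10 h 0) hlt _ (ps_zero_D hα _ fun r hr hu => ?_)
    refine ps_twoLines' hn hα (by norm_num) r ?_
    by_cases h31 : 31 ∣ r
    · right
      obtain ⟨q, rfl⟩ := h31
      rw [u_eq _ _ _ hh] at hu
      have hlt : 31 * q < 2 ^ 10 - 1 := mem_range.1 (mem_filter.1 hr).1
      have := line10 q (mem_range.2 (by norm_num at hlt; omega)) h hmem hu
      rw [this]
    · exact Or.inl h31
  · intro h0
    have := card_supp_twoLines' (n := 2 ^ 10 - 1) hn (by norm_num : 2 ≤ 33)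
    rw [h0] at this
    simp at this
  · rw [card_supp_twoLines' hn (by norm_num)]
  · intro c hc hne
    have hz : ∀ r ∈ R, ps α c r = 0 := fun r hr =>
      ps_zero_of_code0 (by norm_num) hc (hR r hr).1 (by rw [u_eq _ _ _ hh]; exact (hR r hr).2)
    have h1 := check_sound hα c 10 w hne t (mask 1023 10 R) 0
      (mask_sound (m := 10) hα.pow_eq_one c R hz 0 (by simp)) (by simp) hch
    have h2 : Even (supp c).card := even_of_ps_zero α c
      (ps_zero_of_code0 (by norm_num) hc zero_mem_D10.1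
        (by rw [u_eq _ _ _ hh]; exact zero_mem_D10.2 h hmem))
    obtain ⟨a, ha⟩ := hw
    obtain ⟨b, hb⟩ := h2
    omega

/-- There are a field with `2 ^ m` elements and a primitive element. -/
theorem exists_primitive (m : ℕ) (hm : m ≠ 0) : ∃ (K : Type) (_ : Field K)
    (_ : Algebra (ZMod 2) K) (α : K), Nat.card K = 2 ^ m ∧ IsPrimitiveRoot α (2 ^ m - 1) := by
  have : Fact (Nat.Prime 2) := ⟨Nat.prime_two⟩
  have hcard : Nat.card (GaloisField 2 m) = 2 ^ m := GaloisField.card 2 m hm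
  have : Finite (GaloisField 2 m) := Nat.finite_of_card_ne_zero (by rw [hcard]; positivity)
  have : Fintype (GaloisField 2 m) := Fintype.ofFinite _
  obtain ⟨g, hg⟩ := IsCyclic.exists_generator (α := (GaloisField 2 m)ˣ)
  have h1 : orderOf g = 2 ^ m - 1 := by
    rw [orderOf_eq_card_of_forall_mem_zpowers hg, Nat.card_units, hcard]
  refine ⟨GaloisField 2 m, inferInstance, inferInstance, (g : GaloisField 2 m), hcard, ?_⟩
  rw [← h1]
  exact (IsPrimitiveRoot.orderOf g).map_of_injective (f := Units.coeHom _)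
    (fun a b h => Units.ext h)

/-- **Theorem.** Assertion (b) of the problem is false. For `m = 10` (so `l = 1`, `e = 5`) and
every primitive element `α` of the field with `2 ^ 10` elements, `36 ≤ d(C_{D,0}) ≤ 62` for
`h = 1`, where (b) asserts `d(C_{D,0}) = 2 ^ 5 + 2 = 34`, and `34 ≤ d(C_{D,0}) ≤ 62` for `h = 2`,
where (b) asserts `d(C_{D,0}) = 2 ^ 5 = 32`. -/
theorem result :
    (∀ (K : Type) [Field K] [Algebra (ZMod 2) K] (α : K), IsPrimitiveRoot α (2 ^ 10 - 1) →
      (36 ≤ minDist (code0 10 1 α) ∧ minDist (code0 10 1 α) ≤ 62) ∧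
      (34 ≤ minDist (code0 10 2 α) ∧ minDist (code0 10 2 α) ≤ 62)) ∧
    ¬ PartB := by
  have key : ∀ (K : Type) [Field K] [Algebra (ZMod 2) K] (α : K),
      IsPrimitiveRoot α (2 ^ 10 - 1) →
      (36 ≤ minDist (code0 10 1 α) ∧ minDist (code0 10 1 α) ≤ 62) ∧
      (34 ≤ minDist (code0 10 2 α) ∧ minDist (code0 10 2 α) ≤ 62) := by
    intro K _ _ α hα
    exact ⟨bounds10 1 (Or.inl rfl) R10_1 R10_1_spec 34 T10_1 (by decide) check10_1 α hα,
      bounds10 2 (Or.inr rfl) R10_2 R10_2_spec 32 T10_2 (by decide) check10_2 α hα⟩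
  refine ⟨key, fun hB => ?_⟩
  obtain ⟨K, _, _, α, hK, hα⟩ := exists_primitive 10 (by norm_num)
  have h1 := (key K α hα).1.1
  have h2 := (hB 5 10 K α (by norm_num) (by decide) (by norm_num) hK hα).1
  rw [h2] at h1
  norm_num at h1

end Pool.Agent.Results.MP_5d9799_lc.DistancesExceed
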